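import Mathlib
import Pool.Agent.W953.NB.DirCompl
import Pool.Agent.W953.SP.Tree
import Pool.Agent.H589R2.MNL.NBP

/-!
# Elimination of tests: one block of an OR of copies
-/

set_option autoImplicit false

namespace Pool.Agent.W953.CF

open Finset Relation Pool.Agent.H540R2 Pool.Agent.W953.SP Pool.Agent.W953.NB Pool.Agent.W953.NW

universe u

variable {T : Type u} {I B : Type} {𝒯 : Tests T I}

/-- Let a computation in rounds of cost at most `M` decide whether `g` holds for one of `M` blocks.
Then some block can be decided by an OR of few tests, on given accepted and rejected inputs. -/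
theorem elim (hm : Prog.Mono 𝒯) (p : Prog T) (M : ℕ) (hcost : p.cost ≤ M)
    (inp : (Fin M → B → Bool) → I → Bool)
    (hinp : ∀ X Y, (∀ j v, X j v = true → Y j v = true) → ∀ i, inp X i = true → inp Y i = true)
    (g : (B → Bool) → Prop) (h : ∀ X, p.Acc 𝒯 (inp X) ↔ ∃ j, g (X j))
    {Λ Ω : Type} (pos : Λ → B → Bool) (neg : Ω → B → Bool) (hpos : ∀ l, g (pos l))
    (hneg : ∀ S, ¬ g (neg S)) (h0 : ¬ g (fun _ => false)) :
    ∃ (j : Fin M) (X : Fin M → B → Bool) (L : List T), (L.map 𝒯.size).sum ≤ p.load 𝒯 ∧
      (∀ l, ∃ P ∈ L, 𝒯.acc P (inp (Function.update X j (pos l)))) ∧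
      ∀ S, ¬ ∃ P ∈ L, 𝒯.acc P (inp (Function.update X j (neg S))) := by
  classical
  by_contra hcon
  have key : ∀ j ≤ M, ∃ X : Fin M → B → Bool, (∀ i : Fin M, j ≤ i.1 → X i = fun _ => false) ∧
      (∀ i, ¬ g (X i)) ∧ j ≤ p.pot 𝒯 (inp X) := by
    intro j
    induction j with
    | zero =>
      intro _
      exact ⟨fun _ _ => false, fun _ _ => rfl, fun _ => h0, Nat.zero_le _⟩
    | succ j ih =>
      intro hj
      obtain ⟨X, h1, h2, h3⟩ := ih (by omega)
      have hup : ∀ y : B → Bool, ∀ i, inp X i = true →
          inp (Function.update X ⟨j, hj⟩ y) i = true := by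
        intro y
        refine hinp _ _ (fun i v hv => ?_)
        by_cases hi : i = ⟨j, hj⟩
        · rw [hi, h1 ⟨j, hj⟩ le_rfl] at hv
          exact absurd hv (by simp)
        · rw [Function.update_of_ne hi]
          exact hv
      have hacc : ∀ y : B → Bool, p.Acc 𝒯 (inp (Function.update X ⟨j, hj⟩ y)) ↔ g y := by
        intro y
        rw [h]
        constructor
        · rintro ⟨i, hi⟩
          by_cases hij : i = ⟨j, hj⟩
          · rw [hij, Function.update_self] at hi
            exact hi
          · rw [Function.update_of_ne hij] at hi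
            exact absurd hi (h2 i)
        · intro hy
          exact ⟨⟨j, hj⟩, by rw [Function.update_self]; exact hy⟩
      by_cases hall : ∀ S, p.tr 𝒯 (inp (Function.update X ⟨j, hj⟩ (neg S))) = p.tr 𝒯 (inp X)
      · exfalso
        obtain ⟨L, l1, l2⟩ := Prog.flip hm p (inp X)
          {x | (∃ l, x = inp (Function.update X ⟨j, hj⟩ (pos l))) ∨
            ∃ S, x = inp (Function.update X ⟨j, hj⟩ (neg S))} (by
            rintro x (⟨l, rfl⟩ | ⟨S, rfl⟩)
            · exact hup _
            · exact hup _) (by
            rintro x (⟨l, rfl⟩ | ⟨S, rfl⟩) hrej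
            · exact absurd ((hacc _).mpr (hpos l)) hrej
            · exact hall S)
        refine hcon ⟨⟨j, hj⟩, X, L, l1, fun l => ?_, fun S => ?_⟩
        · exact (l2 _ (Or.inl ⟨l, rfl⟩)).mp ((hacc _).mpr (hpos l))
        · intro hP
          exact hneg S ((hacc _).mp ((l2 _ (Or.inr ⟨S, rfl⟩)).mpr hP))
      · push Not at hall
        obtain ⟨S, hS⟩ := hall
        refine ⟨Function.update X ⟨j, hj⟩ (neg S), fun i hi => ?_, fun i => ?_, ?_⟩
        · have : i ≠ ⟨j, hj⟩ := by
            intro h
            rw [h] at hi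
            simp at hi
          rw [Function.update_of_ne this]
          exact h1 i (by omega)
        · by_cases hij : i = ⟨j, hj⟩
          · rw [hij, Function.update_self]
            exact hneg S
          · rw [Function.update_of_ne hij]
            exact h2 i
        · have := (Prog.pot_mono hm p (hup (neg S))).2 (fun h => hS h.symm)
          omega
  obtain ⟨X, -, -, h3⟩ := key M le_rfl
  have := Prog.pot_lt 𝒯 p (inp X)
  omega

/-- the disjunction of a list of directed networks -/
lemma dir_or {n : ℕ} (L : List (Net (Fin n))) : ∃ N : Net (Fin n),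
    N.size ≤ (L.map SP.Net.size).sum ∧ ∀ x, N.DAcc x ↔ ∃ P ∈ L, P.DAcc x := by
  classical
  induction L with
  | nil =>
    refine ⟨constNet false, Nat.zero_le _, fun x => ?_⟩
    rw [constNet_dacc]
    simp
  | cons P L ih =>
    obtain ⟨N, h1, h2⟩ := ih
    obtain ⟨N', h3, h4⟩ := dir.or (n := n) (f := fun x => decide (P.DAcc x))
      (g := fun x => decide (N.DAcc x)) (s := P.size) (t := N.size)
      ⟨P, le_rfl, fun x => decide_eq_true_iff.symm⟩ ⟨N, le_rfl, fun x => decide_eq_true_iff.symm⟩
    refine ⟨N', ?_, fun x => ?_⟩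
    · rw [List.map_cons, List.sum_cons]
      omega
    · rw [h4, Bool.or_eq_true, decide_eq_true_iff, decide_eq_true_iff, h2]
      simp

/-- the branching program of a directed network in which variables are replaced -/
def nbpOf {n : ℕ} {Var : Type} (N : Net (Fin n)) (ρ : Fin n → Bool ⊕ Var) :
    Pool.Agent.H589R2.MNL.NBP Var (2 * N.size + 2) where
  edge p q e := match e with
    | none => Fr N (node N p) (node N q) ∨ ∃ e : Fin N.size, ρ (N.lab e) = Sum.inl true ∧
        Fr N (node N p) (N.fst e) ∧ Fr N (N.snd e) (node N q)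
    | some v => ∃ e : Fin N.size, ρ (N.lab e) = Sum.inr v ∧
        Fr N (node N p) (N.fst e) ∧ Fr N (N.snd e) (node N q)
  src := zeroN N
  snk := oneN N

lemma nbpOf_acc {n : ℕ} {Var : Type} (N : Net (Fin n)) (ρ : Fin n → Bool ⊕ Var) (y : Var → Bool) :
    (nbpOf N ρ).Accepts y ↔ N.DAcc (fun i => Sum.elim id y (ρ i)) := by
  have hstep : (nbpOf N ρ).Step y = SN N (fun i => Sum.elim id y (ρ i)) := by
    funext p q
    apply propext
    constructor
    · rintro (h | ⟨v, ⟨e, h1, h2⟩, hv⟩)
      · have h' : Fr N (node N p) (node N q) ∨ ∃ e : Fin N.size, ρ (N.lab e) = Sum.inl true ∧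
          Fr N (node N p) (N.fst e) ∧ Fr N (N.snd e) (node N q) := h
        rcases h' with h' | ⟨e, h1, h2⟩
        · exact Or.inl h'
        · refine Or.inr ⟨e, ?_, h2⟩
          simp only
          rw [h1]
          rfl
      · refine Or.inr ⟨e, ?_, h2⟩
        simp only
        rw [h1]
        exact hv
    · rintro (h | ⟨e, h1, h2⟩)
      · exact Or.inl (Or.inl h)
      · simp only at h1
        rcases hw : ρ (N.lab e) with b | v
        · rw [hw] at h1
          have hb : b = true := h1
          subst hb
          exact Or.inl (Or.inr ⟨e, hw, h2⟩)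
        · rw [hw] at h1
          exact Or.inr ⟨v, ⟨e, hw, h2⟩, h1⟩
  unfold Pool.Agent.H589R2.MNL.NBP.Accepts
  rw [hstep]
  show ReflTransGen _ (zeroN N) (oneN N) ↔ _
  constructor
  · intro h
    have key : ∀ q, ReflTransGen (SN N (fun i => Sum.elim id y (ρ i))) (zeroN N) q →
        ReflTransGen (N.On (fun i => Sum.elim id y (ρ i))) N.src (node N q) := by
      intro q hq
      induction hq with
      | refl => rw [node_zero]
      | tail _ hbc ih => exact ih.trans (stp_on N _ hbc)
    have := key _ h
    rw [node_one] at this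
    exact this
  · intro h
    rw [acc_iff_RS, mem_RS] at h
    have key : ∀ d q, Path (fun _ => SN N (fun i => Sum.elim id y (ρ i))) (zeroN N) d q →
        ReflTransGen (SN N (fun i => Sum.elim id y (ρ i))) (zeroN N) q := by
      intro d
      induction d with
      | zero =>
        intro q hq
        have : zeroN N = q := hq
        rw [← this]
      | succ d ih =>
        rintro q ⟨c, hc, hg⟩
        exact (ih c hc).tail hg
    exact key _ _ h

end Pool.Agent.W953.CF
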