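import Mathlib
import Pool.Agent.W953.NB.Tfae

/-!
# Path systems with small derivation trees

Labelled path systems of polynomial size whose derivation trees have polynomially many leaves are
exactly as powerful as (nonuniform) LOGCFL.
-/

set_option autoImplicit false

namespace Pool.Agent.W953.CF

open Pool.Agent.H540R2 Pool.Agent.W953.NB Pool.Agent.W953.NW

/-- a label is usable: no label, or the variable is true -/
def On {I : Type} (x : I → Bool) : Option I → Prop
  | none => True
  | some i => x i = true

/-- A path system whose axioms `a` and rules `a, b → c` are labelled by variables (or by nothing);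
accepted are the inputs for which the goal has a derivation tree with at most `leaves` leaves. -/
structure Sys (I : Type) where
  V : Type
  fin : Fintype V
  ax : V → Option I → Prop
  rule : V → V → V → Option I → Prop
  goal : V
  leaves : ℕ

namespace Sys

variable {I J : Type}

/-- there is a derivation tree of `c` with `m` leaves that uses only usable axioms and rules -/
inductive Der (S : Sys I) (x : I → Bool) : S.V → ℕ → Prop
  | ax {a : S.V} {l : Option I} (h : S.ax a l) (hl : On x l) : Der S x a 1
  | rule {a b c : S.V} {l : Option I} {m k : ℕ} (h1 : Der S x a m) (h2 : Der S x b k)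
      (h : S.rule a b c l) (hl : On x l) : Der S x c (m + k)

/-- acceptance -/
def Acc (S : Sys I) (x : I → Bool) : Prop := ∃ m ≤ S.leaves, S.Der x S.goal m

/-- the number of elements plus the bound for the leaves -/
def size (S : Sys I) : ℕ := @Fintype.card S.V S.fin + S.leaves

lemma On.mono {x y : I → Bool} (h : ∀ i, x i = true → y i = true) : ∀ {l : Option I}, On x l → On y l
  | none, _ => trivial
  | some i, hi => h i hi

lemma Der.mono {S : Sys I} {x y : I → Bool} (h : ∀ i, x i = true → y i = true) {a : S.V} {m : ℕ}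
    (hd : S.Der x a m) : S.Der y a m := by
  induction hd with
  | ax h1 hl => exact Der.ax h1 (On.mono h hl)
  | rule _ _ h3 hl ih1 ih2 => exact Der.rule ih1 ih2 h3 (On.mono h hl)

lemma Acc.mono {S : Sys I} {x y : I → Bool} (h : ∀ i, x i = true → y i = true) (hd : S.Acc x) :
    S.Acc y := by
  obtain ⟨m, hm, hd⟩ := hd
  exact ⟨m, hm, hd.mono h⟩

/-- renaming of the variables -/
def map (g : I → J) (S : Sys I) : Sys J where
  V := S.V
  fin := S.fin
  ax a l := ∃ l', S.ax a l' ∧ l = l'.map g
  rule a b c l := ∃ l', S.rule a b c l' ∧ l = l'.map g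
  goal := S.goal
  leaves := S.leaves

lemma on_map (g : I → J) (x : J → Bool) : ∀ l : Option I, On x (l.map g) ↔ On (fun i => x (g i)) l
  | none => Iff.rfl
  | some _ => Iff.rfl

lemma der_of_map (g : I → J) (S : Sys I) (x : J → Bool) {a : (S.map g).V} {m : ℕ}
    (h : (S.map g).Der x a m) : S.Der (fun i => x (g i)) a m := by
  induction h with
  | ax h1 hl =>
    obtain ⟨l', h2, rfl⟩ := h1
    exact Der.ax h2 ((on_map g x _).mp hl)
  | rule _ _ h3 hl ih1 ih2 =>
    obtain ⟨l', h2, rfl⟩ := h3
    exact Der.rule ih1 ih2 h2 ((on_map g x _).mp hl)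

lemma map_of_der (g : I → J) (S : Sys I) (x : J → Bool) {a : S.V} {m : ℕ}
    (h : S.Der (fun i => x (g i)) a m) : (S.map g).Der x a m := by
  induction h with
  | ax h1 hl => exact Der.ax (S := S.map g) ⟨_, h1, rfl⟩ ((on_map g x _).mpr hl)
  | rule _ _ h3 hl ih1 ih2 =>
    exact Der.rule (S := S.map g) ih1 ih2 ⟨_, h3, rfl⟩ ((on_map g x _).mpr hl)

lemma acc_map (g : I → J) (S : Sys I) (x : J → Bool) :
    (S.map g).Acc x ↔ S.Acc (fun i => x (g i)) := by
  constructor
  · rintro ⟨m, hm, h⟩
    exact ⟨m, hm, der_of_map g S x h⟩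
  · rintro ⟨m, hm, h⟩
    exact ⟨m, hm, map_of_der g S x h⟩

end Sys

/-- path systems with small derivation trees as the stronger model -/
def cfB : Big where
  G {n} f s := ∃ S : Sys (Fin (n + n)), S.size ≤ s ∧ ∀ x, S.Acc (lits x) ↔ f x = true
  M {n} f s := ∃ S : Sys (Fin n), S.size ≤ s ∧ ∀ x, S.Acc x ↔ f x = true
  toG := by
    rintro n f s ⟨S, hS, hSf⟩
    refine ⟨S.map (Fin.castAdd n), hS, fun x => ?_⟩
    rw [Sys.acc_map, ← hSf x]
    have : (fun i : Fin n => lits x (Fin.castAdd n i)) = x := by
      funext i
      simp [lits]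
    rw [this]
  incr := by
    rintro n f s ⟨S, hS, hSf⟩ x y hxy
    rw [Bool.le_iff_imp]
    intro h
    rw [← hSf] at h ⊢
    exact h.mono (fun i hi => by
      have := hxy i
      rw [hi] at this
      exact top_le_iff.mp this)
  dual := by
    classical
    rintro n f s ⟨S, hS, hSf⟩
    refine ⟨fun y => decide (S.Acc y), ⟨S, by omega, fun y => decide_eq_true_iff.symm⟩, fun x => ?_⟩
    rw [Bool.eq_iff_iff, decide_eq_true_iff]
    exact hSf x

end Pool.Agent.W953.CF
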