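import Mathlib
import Pool.Agent.W953.CF.Sys
import Pool.Agent.H589R2.MNL.TreeLB

/-!
# Path systems of tree-shaped constraint systems
-/

set_option autoImplicit false

namespace Pool.Agent.W953.CF

open Pool.Agent.H589R2.MNL (Nd Vr xpos xneg sv der_xpos der_xneg xpos_iff)

variable {m h M : ℕ} {I : Type}

/-- the variables of one tree -/
abbrev Bv (m h : ℕ) := Option (Nd h) × Fin m × Fin m × Fin m

/-- the constraint system of block `j` -/
def blk (e : Fin M × Bv m h → I) (x : I → Bool) (j : Fin M) : Vr m → Bool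
  | (none, t) => x (e (j, (none, t)))
  | (some u, t) => if hu : u.length ≤ h then x (e (j, (some ⟨u, hu⟩, t))) else false

lemma blk_some (e : Fin M × Bv m h → I) (x : I → Bool) (j : Fin M) (u : Nd h)
    (t : Fin m × Fin m × Fin m) : blk e x j (some u.1, t) = x (e (j, (some u, t))) := by
  show (if hu : u.1.length ≤ h then x (e (j, (some ⟨u.1, hu⟩, t))) else false) = _
  rw [dif_pos u.2]

/-- some label of the root is derivable and allowed -/
def Goal (h : ℕ) (z : Vr m → Bool) : Prop :=
  ∃ a, z (none, a, a, a) = true ∧ Pool.Agent.H589R2.MNL.Der z h [] a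

/-- the path system of `M` trees -/
noncomputable def fam (e : Fin M × Bv m h → I) : Sys I where
  V := Option (Option (Fin M × Nd h × Fin m))
  fin := inferInstance
  ax a l := (a = some none ∧ l = none) ∨ ∃ j u c, u.1.length = h ∧ a = some (some (j, u, c)) ∧
    l = some (e (j, (some u, c, c, c)))
  rule p q r l := (∃ j u a, u.1 = [] ∧ p = some (some (j, u, a)) ∧ q = some none ∧ r = none ∧
      l = some (e (j, (none, a, a, a)))) ∨
    ∃ j u u0 u1 a b c, u.1.length < h ∧ u0.1 = u.1 ++ [false] ∧ u1.1 = u.1 ++ [true] ∧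
      p = some (some (j, u0, b)) ∧ q = some (some (j, u1, c)) ∧
      r = some (some (j, u, a)) ∧ l = some (e (j, (some u, a, b, c)))
  goal := none
  leaves := 2 ^ h + 1

lemma fam_size (e : Fin M × Bv m h → I) :
    (fam e).size = M * (Fintype.card (Nd h) * m) + 2 + (2 ^ h + 1) := by
  show Fintype.card (Option (Option (Fin M × Nd h × Fin m))) + (2 ^ h + 1) = _
  simp

/-- what the elements mean -/
def Mean (e : Fin M × Bv m h → I) (x : I → Bool) : Option (Option (Fin M × Nd h × Fin m)) → Prop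
  | none => ∃ j, Goal h (blk e x j)
  | some none => True
  | some (some (j, u, a)) => ∃ k, u.1.length + k = h ∧
      Pool.Agent.H589R2.MNL.Der (blk e x j) k u.1 a

lemma mean_of_der (e : Fin M × Bv m h → I) (x : I → Bool) {p : (fam e).V} {k : ℕ}
    (hd : (fam e).Der x p k) : Mean e x p := by
  induction hd with
  | @ax p l h1 hl =>
    rcases h1 with ⟨rfl, -⟩ | ⟨j, u, c, h2, rfl, rfl⟩
    · exact trivial
    · refine ⟨0, by omega, ?_⟩
      show blk e x j (some u.1, c, c, c) = true
      rw [blk_some]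
      exact hl
  | @rule p q r l _ _ _ _ h3 hl ih1 ih2 =>
    rcases h3 with ⟨j, u, a, h1, rfl, rfl, rfl, rfl⟩ | ⟨j, u, u0, u1, a, b, c, h1, h2, h3, rfl, rfl,
      rfl, rfl⟩
    · obtain ⟨k, hk, hk2⟩ := ih1
      refine ⟨j, a, ?_, ?_⟩
      · exact hl
      · have : k = h := by
          rw [h1] at hk
          simpa using hk
        subst this
        rw [h1] at hk2
        exact hk2
    · obtain ⟨k, hk, hk2⟩ := ih1
      obtain ⟨k', hk', hk2'⟩ := ih2
      have e1 : u0.1.length = u.1.length + 1 := by rw [h2]; simp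
      have e2 : u1.1.length = u.1.length + 1 := by rw [h3]; simp
      have e3 : k' = k := by omega
      subst e3
      refine ⟨k' + 1, by omega, b, c, ?_, ?_, ?_⟩
      · rw [h2] at hk2
        exact hk2
      · rw [h3] at hk2'
        exact hk2'
      · rw [blk_some]
        exact hl

lemma der_of_tree (e : Fin M × Bv m h → I) (x : I → Bool) (j : Fin M) (k : ℕ) :
    ∀ (u : Nd h) (a : Fin m), u.1.length + k = h →
      Pool.Agent.H589R2.MNL.Der (blk e x j) k u.1 a →
      (fam e).Der x (some (some (j, u, a))) (2 ^ k) := by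
  induction k with
  | zero =>
    intro u a hu hd
    have hd' : blk e x j (some u.1, a, a, a) = true := hd
    rw [blk_some] at hd'
    exact Sys.Der.ax (S := fam e) (Or.inr ⟨j, u, a, by omega, rfl, rfl⟩) hd'
  | succ k ih =>
    rintro u a hu ⟨b, c, hb, hc, hx⟩
    have hl : u.1.length < h := by omega
    obtain ⟨u0, hu0⟩ : ∃ u0 : Nd h, u0.1 = u.1 ++ [false] := ⟨⟨u.1 ++ [false], by simp; omega⟩, rfl⟩
    obtain ⟨u1, hu1⟩ : ∃ u1 : Nd h, u1.1 = u.1 ++ [true] := ⟨⟨u.1 ++ [true], by simp; omega⟩, rfl⟩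
    rw [← hu0] at hb
    rw [← hu1] at hc
    have d0 := ih u0 b (by rw [hu0]; simp; omega) hb
    have d1 := ih u1 c (by rw [hu1]; simp; omega) hc
    rw [blk_some] at hx
    rw [pow_succ, Nat.mul_two]
    exact Sys.Der.rule (S := fam e) d0 d1
      (Or.inr ⟨j, u, u0, u1, a, b, c, hl, hu0, hu1, rfl, rfl, rfl, rfl⟩) hx

theorem fam_acc (e : Fin M × Bv m h → I) (x : I → Bool) :
    (fam e).Acc x ↔ ∃ j, Goal h (blk e x j) := by
  constructor
  · rintro ⟨k, _, hd⟩
    exact mean_of_der e x hd
  · rintro ⟨j, a, h1, h2⟩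
    have d0 := der_of_tree e x j h (⟨[], by simp⟩ : Nd h) a (by simp) h2
    refine ⟨2 ^ h + 1, le_rfl, ?_⟩
    exact Sys.Der.rule (S := fam e) d0 (Sys.Der.ax (S := fam e) (Or.inl ⟨rfl, rfl⟩) trivial)
      (Or.inl ⟨j, _, a, rfl, rfl, rfl, rfl, rfl⟩) h1

/-- embedding of the variables -/
def emb (t : Bv m h) : Vr m := (t.1.map Subtype.val, t.2)

lemma der_congr {z z' : Vr m → Bool} (hz : ∀ u : List Bool, u.length ≤ h → ∀ t,
    z (some u, t) = z' (some u, t)) (k : ℕ) : ∀ (u : List Bool) (a : Fin m), u.length + k ≤ h →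
    Pool.Agent.H589R2.MNL.Der z k u a → Pool.Agent.H589R2.MNL.Der z' k u a := by
  induction k with
  | zero =>
    intro u a hu hd
    show z' (some u, a, a, a) = true
    rw [← hz u (by omega)]
    exact hd
  | succ k ih =>
    rintro u a hu ⟨b, c, hb, hc, hx⟩
    refine ⟨b, c, ih _ _ (by simp; omega) hb, ih _ _ (by simp; omega) hc, ?_⟩
    rw [← hz u (by omega)]
    exact hx

lemma goal_congr {z z' : Vr m → Bool} (h0 : ∀ t, z (none, t) = z' (none, t))
    (hz : ∀ u : List Bool, u.length ≤ h → ∀ t, z (some u, t) = z' (some u, t)) :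
    Goal h z → Goal h z' := by
  rintro ⟨a, h1, h2⟩
  exact ⟨a, by rw [← h0]; exact h1, der_congr hz h _ _ (by simp) h2⟩

/-- the property of a block as a function of its own variables -/
def Gb (y : Bv m h → Bool) : Prop :=
  Goal h (fun z : Vr m => match z with
    | (none, t) => y (none, t)
    | (some u, t) => if hu : u.length ≤ h then y (some ⟨u, hu⟩, t) else false)

lemma gb_iff (z : Vr m → Bool) : Gb (fun t : Bv m h => z (emb t)) ↔ Goal h z := by
  unfold Gb
  constructor
  · refine goal_congr (fun t => rfl) (fun u hu t => ?_)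
    simp only [hu, dif_pos]
    rfl
  · refine goal_congr (fun t => rfl) (fun u hu t => ?_)
    simp only [hu, dif_pos]
    rfl

lemma goal_xpos (hm : 1 ≤ m) (l : Nd h → Fin m) : Goal h (xpos hm h l) := by
  refine ⟨Pool.Agent.H589R2.MNL.lext hm h l [], ?_, der_xpos hm h l h [] (by simp)⟩
  rw [xpos_iff]
  exact ⟨none, rfl⟩

lemma not_goal_xneg (S : Pool.Agent.H589R2.MNL.Tab (Nd h) m) : ¬ Goal h (xneg h S) := by
  rintro ⟨a, h1, h2⟩
  have h3 := der_xneg h S h [] a (by simp) h2
  have h4 : (!(sv h S [] a)) = true := h1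
  rw [h3] at h4
  exact absurd h4 (by simp)

end Pool.Agent.W953.CF
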