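import Mathlib
import Pool.Agent.W953.CF.Fam
import Pool.Agent.W953.CF.Elim
import Pool.Agent.W953.CF.Single

/-!
# Trees are hard for computations in rounds with directed networks
-/

set_option autoImplicit false

namespace Pool.Agent.W953.CF

open Finset Pool.Agent.H540R2 Pool.Agent.W953.SP Pool.Agent.W953.NB
open Pool.Agent.H589R2.MNL (Nd Vr xpos xneg)

variable {m h M n r : ℕ}

/-- the input with the blocks `X` and `k` further ones -/
def inpt (e : (Fin M × Bv m h) ⊕ Fin r ≃ Fin n) (k : ℕ) (X : Fin M → Bv m h → Bool) (i : Fin n) :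
    Bool :=
  Sum.elim (fun t => X t.1 t.2) (fun q => decide (q.val < k)) (e.symm i)

lemma inpt_inl (e : (Fin M × Bv m h) ⊕ Fin r ≃ Fin n) (k : ℕ) (X : Fin M → Bv m h → Bool)
    (t : Fin M × Bv m h) : inpt e k X (e (Sum.inl t)) = X t.1 t.2 := by
  unfold inpt
  rw [Equiv.symm_apply_apply]
  rfl

lemma ones_inpt (e : (Fin M × Bv m h) ⊕ Fin r ≃ Fin n) {k : ℕ} (hk : k ≤ r)
    (X : Fin M → Bv m h → Bool) :
    k ≤ (univ.filter (fun i => inpt e k X i = true)).card ∧
    (univ.filter (fun i => inpt e k X i = true)).card ≤ k + Fintype.card (Fin M × Bv m h) := by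
  have h1 : (univ.filter (fun i => inpt e k X i = true)).card =
      (univ.filter (fun t : Fin M × Bv m h => X t.1 t.2 = true)).card +
      (univ.filter (fun q : Fin r => q.val < k)).card := by
    rw [Finset.card_filter, Finset.card_filter, Finset.card_filter, ← Equiv.sum_comp e,
      Fintype.sum_sum_type]
    congr 1
    · refine Finset.sum_congr rfl (fun t _ => ?_)
      rw [inpt_inl]
    · refine Finset.sum_congr rfl (fun q _ => ?_)
      unfold inpt
      rw [Equiv.symm_apply_apply]
      simp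
  have h2 : (univ.filter (fun q : Fin r => q.val < k)).card = k := by
    rw [Fin.card_filter_val_lt]
    omega
  have h3 : (univ.filter (fun t : Fin M × Bv m h => X t.1 t.2 = true)).card ≤
      Fintype.card (Fin M × Bv m h) := Finset.card_le_univ _
  omega

lemma fam_inpt (e : (Fin M × Bv m h) ⊕ Fin r ≃ Fin n) (k : ℕ) (X : Fin M → Bv m h → Bool) :
    (fam (fun t => e (Sum.inl t))).Acc (inpt e k X) ↔ ∃ j, Gb (X j) := by
  rw [fam_acc]
  refine exists_congr (fun j => ?_)
  unfold Gb
  constructor
  · refine goal_congr (fun t => ?_) (fun u hu t => ?_)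
    · exact inpt_inl e k X _
    · show (if hu : u.length ≤ h then inpt e k X (e (Sum.inl (j, (some ⟨u, hu⟩, t)))) else false) =
        (if hu : u.length ≤ h then X j (some ⟨u, hu⟩, t) else false)
      rw [dif_pos hu, dif_pos hu]
      exact inpt_inl e k X _
  · refine goal_congr (fun t => ?_) (fun u hu t => ?_)
    · exact (inpt_inl e k X (j, (none, t))).symm
    · show (if hu : u.length ≤ h then X j (some ⟨u, hu⟩, t) else false) =
        (if hu : u.length ≤ h then inpt e k X (e (Sum.inl (j, (some ⟨u, hu⟩, t)))) else false)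
      rw [dif_pos hu, dif_pos hu]
      exact (inpt_inl e k X (j, (some ⟨u, hu⟩, t))).symm

theorem dnet_mono (I : Type) : Prog.Mono (dnetTests I) := fun _ _ _ h hx => hx.mono h

/-- `M` trees are hard. -/
theorem hard_core (e : (Fin M × Bv m h) ⊕ Fin r ≃ Fin n) (hm : 1 ≤ m) {R : ℕ}
    (hR : ∀ r' ≤ R, ∀ P : Pool.Agent.H589R2.MNL.NBP (Vr m) r',
      (∀ l, P.Accepts (xpos hm h l)) → ¬ ∀ S, ¬ P.Accepts (xneg h S))
    {k : ℕ} (hk : k ≤ r) (p : Prog (Net (Fin n))) (hcost : p.cost ≤ M)
    (hload : 2 * p.load (dnetTests _) + 2 ≤ R) :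
    ∃ x : Fin n → Bool, k ≤ (univ.filter (fun i => x i = true)).card ∧
      (univ.filter (fun i => x i = true)).card ≤ k + Fintype.card (Fin M × Bv m h) ∧
      ¬ (p.Acc (dnetTests _) x ↔ (fam (fun t => e (Sum.inl t))).Acc x) := by
  classical
  by_contra hcon
  push Not at hcon
  have hacc : ∀ X : Fin M → Bv m h → Bool,
      p.Acc (dnetTests _) (inpt e k X) ↔ ∃ j, Gb (X j) := by
    intro X
    obtain ⟨h1, h2⟩ := ones_inpt e hk X
    rw [← fam_inpt e k X]
    exact hcon _ h1 h2
  obtain ⟨j, X, L, hL, hpos, hneg⟩ := elim (dnet_mono (Fin n)) p M hcost (inpt e k)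
    (fun X Y hXY i hi => by
      unfold inpt at hi ⊢
      revert hi
      rcases e.symm i with t | q
      · exact fun hi => hXY _ _ hi
      · exact fun hi => hi)
    Gb hacc (fun (l : Nd h → Fin m) v => xpos hm h l (emb v))
    (fun (S : Pool.Agent.H589R2.MNL.Tab (Nd h) m) v => xneg h S (emb v))
    (fun l => (gb_iff _).mpr (goal_xpos hm l)) (fun S hS => not_goal_xneg S ((gb_iff _).mp hS))
    (fun h0 => by
      obtain ⟨a, ha, -⟩ := h0
      exact absurd ha (by simp))
  obtain ⟨N, hN, hNL⟩ := dir_or L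
  let ρ : Fin n → Bool ⊕ Vr m := fun i => Sum.elim
    (fun t : Fin M × Bv m h => if t.1 = j then Sum.inr (emb t.2) else Sum.inl (X t.1 t.2))
    (fun q => Sum.inl (decide (q.val < k))) (e.symm i)
  have hρ : ∀ y : Vr m → Bool, (fun i => Sum.elim id y (ρ i)) =
      inpt e k (Function.update X j (fun v => y (emb v))) := by
    intro y
    funext i
    simp only [ρ, inpt]
    rcases e.symm i with t | q
    · simp only [Sum.elim_inl]
      by_cases ht : t.1 = j
      · rw [if_pos ht, ht, Function.update_self]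
        rfl
      · rw [if_neg ht, Function.update_of_ne ht]
        rfl
    · simp only [Sum.elim_inr, Sum.elim_inl]
      rfl
  refine hR (2 * N.size + 2) ?_ (nbpOf N ρ) (fun l => ?_) (fun S hS => ?_)
  · have : (L.map (dnetTests (Fin n)).size).sum = (L.map SP.Net.size).sum := rfl
    omega
  · rw [nbpOf_acc, hρ, hNL]
    exact hpos l
  · rw [nbpOf_acc, hρ, hNL] at hS
    exact hneg S hS

end Pool.Agent.W953.CF
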