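import Mathlib
import Pool.Agent.W953.CF.Hard

/-!
# Asymptotic form
-/

set_option autoImplicit false

namespace Pool.Agent.W953.CF

open Finset Pool.Agent.H540R2 Pool.Agent.W953.SP Pool.Agent.W953.NB
open Pool.Agent.H589R2.MNL (Nd Vr xpos xneg)

/-- **For all large `n`, monotone functions with small path systems and small derivation trees are
hard for computations in rounds with directed networks, on few consecutive slices.** -/
theorem cf_hard (c j : ℕ) : ∃ n₀ : ℕ, ∀ n M U : ℕ, n₀ ≤ n → M ^ (j + 1) * n ≤ U ^ (j + 1) →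
    U ≤ n → ∃ S : Sys (Fin n), S.size ≤ 2 * n ∧
      ∀ k, k + U ≤ n → ∀ p : Prog (Net (Fin n)), p.cost ≤ M → p.load (dnetTests _) ≤ n ^ c →
        ∃ x : Fin n → Bool, k ≤ (univ.filter (fun i => x i = true)).card ∧
          (univ.filter (fun i => x i = true)).card ≤ k + U ∧
          ¬ (p.Acc (dnetTests _) x ↔ S.Acc x) := by
  obtain ⟨J, hJ⟩ : ∃ J, J = j + 1 := ⟨_, rfl⟩
  have hJ1 : 1 ≤ J := by omega
  obtain ⟨h, L0, hsingle⟩ := single_all (J * c)
  obtain ⟨v, hv⟩ : ∃ v, v = Fintype.card (Nd h) := ⟨_, rfl⟩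
  refine ⟨2 ^ (4 * J * (L0 + v + 2)) + 2 ^ h + 3, fun n M U hn hMU hU => ?_⟩
  rw [← hJ] at hMU
  have q1 : 1 ≤ 2 ^ h := Nat.one_le_two_pow
  have q2 : 1 ≤ 2 ^ (4 * J * (L0 + v + 2)) := Nat.one_le_two_pow
  have hn1 : 2 ^ (4 * J * (L0 + v + 2)) ≤ n := by omega
  have hn2 : 2 ^ h + 3 ≤ n := by omega
  obtain ⟨L, hL⟩ : ∃ L, L = Nat.log 2 n := ⟨_, rfl⟩
  have hL1 : 4 * J * (L0 + v + 2) ≤ L := by
    rw [hL]
    exact Nat.le_log_of_pow_le (by norm_num) hn1
  have hL2 : 2 ^ L ≤ n := by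
    rw [hL]
    exact Nat.pow_log_le_self 2 (by omega)
  have hL3 : n < 2 ^ (L + 1) := by
    rw [hL]
    exact Nat.lt_pow_succ_log_self (by norm_num) n
  obtain ⟨s, hs⟩ : ∃ s, s = L / (4 * J) := ⟨_, rfl⟩
  have hs1 : L0 + v + 2 ≤ s := by
    rw [hs, Nat.le_div_iff_mul_le (by omega), Nat.mul_comm]
    exact hL1
  have hs2 : 4 * J * s ≤ L := by
    rw [hs]
    exact Nat.mul_div_le L (4 * J)
  have hs3 : L + 1 ≤ 4 * J * (s + 1) := by
    rw [hs]
    exact Nat.lt_mul_div_succ L (by omega)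
  obtain ⟨m, hm⟩ : ∃ m, m = 2 ^ s := ⟨_, rfl⟩
  have hm1 : 1 ≤ m := by
    rw [hm]
    exact Nat.one_le_two_pow
  obtain ⟨U0, hU0⟩ : ∃ U0, U0 = Fintype.card (Fin M × Bv m h) := ⟨_, rfl⟩
  have hU0' : U0 = M * ((v + 1) * m ^ 3) := by
    rw [hU0, hv, Fintype.card_prod, Fintype.card_prod, Fintype.card_prod, Fintype.card_prod,
      Fintype.card_option, Fintype.card_fin, Fintype.card_fin]
    ring
  have hv1 : v + 1 ≤ 2 ^ s := (by omega : v + 1 ≤ s).trans Nat.lt_two_pow_self.le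
  have hUU : U0 ≤ U := by
    have h1 : ((v + 1) * m ^ 3) ^ J ≤ n := by
      calc ((v + 1) * m ^ 3) ^ J ≤ (2 ^ s * m ^ 3) ^ J :=
            Nat.pow_le_pow_left (Nat.mul_le_mul_right _ hv1) J
        _ = 2 ^ (4 * J * s) := by
            rw [hm, ← pow_mul, ← pow_add, ← pow_mul]
            congr 1
            ring
        _ ≤ 2 ^ L := Nat.pow_le_pow_right (by norm_num) hs2
        _ ≤ n := hL2
    have h2 : U0 ^ J ≤ U ^ J := by
      rw [hU0', mul_pow]
      exact (Nat.mul_le_mul_left _ h1).trans hMU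
    exact (Nat.pow_le_pow_iff_left (by omega)).mp h2
  obtain ⟨r, hr⟩ : ∃ r, r = n - U0 := ⟨_, rfl⟩
  have hcard : Fintype.card ((Fin M × Bv m h) ⊕ Fin r) = n := by
    rw [Fintype.card_sum, Fintype.card_fin, ← hU0]
    omega
  have e := Fintype.equivFinOfCardEq hcard
  refine ⟨fam (fun t => e (Sum.inl t)), ?_, fun k hk p hcost hload => ?_⟩
  · rw [fam_size, ← hv]
    have h1 : M * (v * m) ≤ U0 := by
      rw [hU0']
      refine Nat.mul_le_mul_left _ (Nat.mul_le_mul (by omega) ?_)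
      exact Nat.le_self_pow (by norm_num) m
    omega
  · have hsing := hsingle s (by omega) (by omega) m hm hm1
    obtain ⟨x, h1, h2, h3⟩ := hard_core e hm1 (R := 2 ^ ((h + 5 + 4 * s) * (J * c) + 2)) hsing
      (k := k) (by omega) p hcost (by
        have h1 : n ^ c ≤ 2 ^ ((L + 1) * c) := by
          rw [pow_mul]
          exact Nat.pow_le_pow_left hL3.le c
        have h2 : (L + 1) * c ≤ (h + 5 + 4 * s) * (J * c) := by
          calc (L + 1) * c ≤ 4 * J * (s + 1) * c := Nat.mul_le_mul_right _ hs3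
            _ = (4 * s + 4) * (J * c) := by ring
            _ ≤ (h + 5 + 4 * s) * (J * c) := Nat.mul_le_mul_right _ (by omega)
        have h3 : 2 ^ ((L + 1) * c) ≤ 2 ^ ((h + 5 + 4 * s) * (J * c)) :=
          Nat.pow_le_pow_right (by norm_num) h2
        have h4 : 1 ≤ 2 ^ ((h + 5 + 4 * s) * (J * c)) := Nat.one_le_two_pow
        have h5 : 2 ^ ((h + 5 + 4 * s) * (J * c) + 2) = 4 * 2 ^ ((h + 5 + 4 * s) * (J * c)) := by
          rw [pow_add]
          ring
        rw [h5]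
        omega)
    exact ⟨x, h1, h2.trans (by rw [← hU0]; omega), h3⟩

end Pool.Agent.W953.CF
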