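import Mathlib
import Pool.Agent.W953.SR.DetHard
import Pool.Agent.W953.CF.Hard

/-!
# A deterministic context-free language is hard for computations in rounds with directed networks
-/

set_option autoImplicit false

namespace Pool.Agent.W953.CF

open Finset Pool.Agent.W953.SP Pool.Agent.W953.SR Pool.Agent.H540R2 Pool.Agent.W953.NB

open Pool.Agent.H589R2.MNL (Nd Vr Tg S3 Sk mach3 mach3_accepts tenc tblks length_tenc length_tblks
  evb evb_tblks KK DGood dgood_iff dgood_good dgood_xpos not_good_xneg not_good_zero xpos xneg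
  good_mono elim_map)

universe u

/-- Elimination of tests, when the computation is correct on the relevant inputs only. -/
theorem elim_dom {T : Type u} {I B : Type} {𝒯 : Tests T I} (hm : Prog.Mono 𝒯) (p : Prog T) (M : ℕ)
    (hcost : p.cost ≤ M) (inp : (Fin M → B → Bool) → I → Bool)
    (hinp : ∀ X Y, (∀ j v, X j v = true → Y j v = true) → ∀ i, inp X i = true → inp Y i = true)
    {Λ Ω : Type} (pos : Λ → B → Bool) (neg : Ω → B → Bool)
    (hneg : ∀ X : Fin M → B → Bool, (∀ j, X j = (fun _ => false) ∨ ∃ S, X j = neg S) →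
      ¬ p.Acc 𝒯 (inp X))
    (hpos : ∀ X : Fin M → B → Bool, (∀ j, X j = (fun _ => false) ∨ ∃ S, X j = neg S) →
      ∀ j l, p.Acc 𝒯 (inp (Function.update X j (pos l)))) :
    ∃ (j : Fin M) (X : Fin M → B → Bool) (L : List T), (L.map 𝒯.size).sum ≤ p.load 𝒯 ∧
      (∀ l, ∃ P ∈ L, 𝒯.acc P (inp (Function.update X j (pos l)))) ∧
      ∀ S, ¬ ∃ P ∈ L, 𝒯.acc P (inp (Function.update X j (neg S))) := by
  classical
  by_contra hcon
  have key : ∀ j ≤ M, ∃ X : Fin M → B → Bool, (∀ i : Fin M, j ≤ i.1 → X i = fun _ => false) ∧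
      (∀ i, X i = (fun _ => false) ∨ ∃ S, X i = neg S) ∧ j ≤ p.pot 𝒯 (inp X) := by
    intro j
    induction j with
    | zero =>
      intro _
      exact ⟨fun _ _ => false, fun _ _ => rfl, fun _ => Or.inl rfl, Nat.zero_le _⟩
    | succ j ih =>
      intro hj
      obtain ⟨X, h1, h2, h3⟩ := ih (by omega)
      have hup : ∀ y : B → Bool, ∀ i, inp X i = true →
          inp (Function.update X ⟨j, hj⟩ y) i = true := by
        intro y
        refine hinp _ _ (fun i v hv => ?_)
        by_cases hi : i = ⟨j, hj⟩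
        · rw [hi, h1 ⟨j, hj⟩ le_rfl] at hv
          exact absurd hv (by simp)
        · rw [Function.update_of_ne hi]
          exact hv
      have hX : ∀ S, ∀ i, Function.update X ⟨j, hj⟩ (neg S) i = (fun _ => false) ∨
          ∃ S', Function.update X ⟨j, hj⟩ (neg S) i = neg S' := by
        intro S i
        by_cases hij : i = ⟨j, hj⟩
        · rw [hij, Function.update_self]
          exact Or.inr ⟨S, rfl⟩
        · rw [Function.update_of_ne hij]
          exact h2 i
      by_cases hall : ∀ S, p.tr 𝒯 (inp (Function.update X ⟨j, hj⟩ (neg S))) = p.tr 𝒯 (inp X)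
      · exfalso
        obtain ⟨L, l1, l2⟩ := Prog.flip hm p (inp X)
          {x | (∃ l, x = inp (Function.update X ⟨j, hj⟩ (pos l))) ∨
            ∃ S, x = inp (Function.update X ⟨j, hj⟩ (neg S))} (by
            rintro x (⟨l, rfl⟩ | ⟨S, rfl⟩)
            · exact hup _
            · exact hup _) (by
            rintro x (⟨l, rfl⟩ | ⟨S, rfl⟩) hrej
            · exact absurd (hpos X h2 _ l) hrej
            · exact hall S)
        refine hcon ⟨⟨j, hj⟩, X, L, l1, fun l => ?_, fun S => ?_⟩
        · exact (l2 _ (Or.inl ⟨l, rfl⟩)).mp (hpos X h2 _ l)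
        · intro hP
          exact hneg _ (hX S) ((l2 _ (Or.inr ⟨S, rfl⟩)).mpr hP)
      · push Not at hall
        obtain ⟨S, hS⟩ := hall
        refine ⟨Function.update X ⟨j, hj⟩ (neg S), fun i hi => ?_, hX S, ?_⟩
        · have : i ≠ ⟨j, hj⟩ := by
            intro h
            rw [h] at hi
            simp at hi
          rw [Function.update_of_ne this]
          exact h1 i (by omega)
        · have := (Prog.pot_mono hm p (hup (neg S))).2 (fun h => hS h.symm)
          omega
  obtain ⟨X, -, -, h3⟩ := key M le_rfl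
  have := Prog.pot_lt 𝒯 p (inp X)
  omega

section

variable {m h : ℕ}

/-- The words of the automaton, their domain and the inputs. -/
theorem det_words (hm1 : 1 ≤ m) (h M U n : ℕ) (hU : M * (tenc m h).length ≤ U) (hn : U ≤ n) :
    ∃ (t : Fin n → Tg) (D : Set (Fin n → Bool)),
      (∀ x ∈ D, ∀ y ∈ D, x ≤ y → mach3.Accepts (List.ofFn fun i => (t i, x i)) →
        mach3.Accepts (List.ofFn fun i => (t i, y i))) ∧
      ∀ k, k + U ≤ n → ∃ emb : (Fin M → Vr m → Bool) → Fin n → Bool,
        (∀ i, (∃ J z, ∀ Y, emb Y i = Y J z) ∨ ∃ c, ∀ Y, emb Y i = c) ∧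
        (∀ Y, k ≤ (Finset.univ.filter (fun i => emb Y i = true)).card ∧
          (Finset.univ.filter (fun i => emb Y i = true)).card ≤ k + U) ∧
        ∀ Y, (∀ J, Y J ∈ KK hm1 h) → emb Y ∈ D ∧
          (mach3.Accepts (List.ofFn fun i => (t i, emb Y i)) ↔ ∃ J, DGood h (Y J)) := by
  classical
  obtain ⟨b, hb⟩ : ∃ b, b = (tenc m h).length := ⟨_, rfl⟩
  have hMb : M * b ≤ U := by rw [hb]; exact hU
  obtain ⟨r, hr⟩ : ∃ r, n = r + M * b := ⟨n - M * b, by omega⟩
  obtain ⟨full, hfull⟩ : ∃ full : List (Tg × (Bool ⊕ (Fin M × Vr m))),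
    full = List.replicate r (Tg.tF, Sum.inl false) ++ tblks m M h := ⟨_, rfl⟩
  have hlen : full.length = n := by
    rw [hfull, List.length_append, List.length_replicate, length_tblks, ← hb, hr]
  subst hlen
  have hgood : ∀ (X : Fin M × Vr m → Bool) (x : Fin full.length → Bool),
      (∀ i : Fin full.length, r ≤ i.val → x i = Sum.elim id X (full.get i).2) →
      (mach3.Accepts (List.ofFn (fun i : Fin full.length => ((full.get i).1, x i))) ↔
      ∃ j, DGood h (fun v => X (j, v))) := by
    intro X x hx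
    rw [accepts_full hfull X x hx, evb_tblks, mach3_accepts]
    simp [List.mem_map]
  refine ⟨fun i => (full.get i).1,
    {x | ∃ X : Fin M × Vr m → Bool, (∀ j, (fun v => X (j, v)) ∈ KK hm1 h) ∧
      ∀ i : Fin full.length, r ≤ i.val → x i = Sum.elim id X (full.get i).2}, ?_,
    fun k hk => ?_⟩
  · rintro x ⟨X, hX, hx⟩ y ⟨Y, hY, hy⟩ hxy hacc
    rw [hgood X x hx] at hacc
    rw [hgood Y y hy]
    obtain ⟨j, hj⟩ := hacc
    refine ⟨j, (dgood_iff hm1 (hY j)).2 (good_mono ?_ ((dgood_iff hm1 (hX j)).1 hj))⟩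
    intro g hg hgX
    have hmem : (g.1, Sum.map id (Prod.mk j) g.2) ∈ tblks m M h := by
      unfold tblks
      rw [List.mem_flatMap]
      exact ⟨j, List.mem_finRange j, List.mem_map.2 ⟨g, hg, rfl⟩⟩
    obtain ⟨i, hi, hi2⟩ := List.mem_iff_getElem.1 hmem
    have hlt : r + i < full.length := by
      rw [hfull, List.length_append, List.length_replicate]
      omega
    have hget : full[r + i]'hlt = (g.1, Sum.map id (Prod.mk j) g.2) := by
      have : ∀ (l : List (Tg × (Bool ⊕ (Fin M × Vr m)))) (hl : l = full) (h3 : r + i < l.length),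
          l[r + i] = full[r + i]'hlt := by
        intro l hl h3
        subst hl
        rfl
      rw [← this _ hfull.symm (by
          rw [List.length_append, List.length_replicate]
          omega),
        List.getElem_append_right (by rw [List.length_replicate]; omega)]
      rw [← hi2]
      congr 1
      rw [List.length_replicate]
      omega
    have h1 := hxy ⟨r + i, hlt⟩
    rw [hx _ (by simp only; omega), hy _ (by simp only; omega)] at h1
    simp only [List.get_eq_getElem, hget, elim_map] at h1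
    rw [hgX] at h1
    exact top_le_iff.1 h1
  · obtain ⟨emb, hemb⟩ : ∃ emb : (Fin M → Vr m → Bool) → Fin full.length → Bool,
      emb = fun Y i => if i.val < r then decide (i.val < k) else
        Sum.elim id (fun z : Fin M × Vr m => Y z.1 z.2) (full.get i).2 := ⟨_, rfl⟩
    have hkr : k ≤ r := by omega
    refine ⟨emb, fun i => ?_, fun Y => ⟨?_, ?_⟩, fun Y hY => ?_⟩
    · by_cases hi : i.val < r
      · right
        refine ⟨decide (i.val < k), fun Y => ?_⟩
        rw [hemb]
        simp only
        rw [if_pos hi]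
      · rcases hi2 : (full.get i).2 with c | ⟨J, z⟩
        · right
          refine ⟨c, fun Y => ?_⟩
          rw [hemb]
          simp only
          rw [if_neg hi, hi2]
          rfl
        · left
          refine ⟨J, z, fun Y => ?_⟩
          rw [hemb]
          simp only
          rw [if_neg hi, hi2]
          rfl
    · have h1 : (Finset.univ : Finset (Fin k)).card ≤
          (Finset.univ.filter (fun i => emb Y i = true)).card :=
        Finset.card_le_card_of_injOn (fun i : Fin k => (⟨i.val, by omega⟩ : Fin full.length))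
          (fun i _ => by
            simp only [Finset.coe_filter, Finset.mem_univ, true_and, Set.mem_ofPred_eq]
            rw [hemb]
            simp only
            rw [if_pos (by omega)]
            simp)
          (fun i _ j _ hij => by
            simp only [Fin.mk.injEq] at hij
            exact Fin.ext hij)
      rwa [Finset.card_univ, Fintype.card_fin] at h1
    · have h1 : (Finset.univ.filter (fun i => emb Y i = true)).card ≤
          (Finset.range k ∪ Finset.Ico r full.length).card :=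
        Finset.card_le_card_of_injOn (fun i : Fin full.length => i.val)
          (fun i hi => by
            simp only [Finset.coe_filter, Finset.mem_univ, true_and, Set.mem_ofPred_eq] at hi
            rw [hemb] at hi
            simp only at hi
            rw [Finset.mem_coe, Finset.mem_union, Finset.mem_range, Finset.mem_Ico]
            by_contra hc
            push Not at hc
            have h2 := i.isLt
            have h3 : i.val < r := by
              by_contra h4
              exact absurd (hc.2 (by omega)) (by omega)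
            rw [if_pos h3] at hi
            simp only [decide_eq_true_eq] at hi
            omega)
          (Fin.val_injective.injOn)
      have h2 := Finset.card_union_le (Finset.range k) (Finset.Ico r full.length)
      rw [Finset.card_range, Nat.card_Ico] at h2
      omega
    · have hx : ∀ i : Fin full.length, r ≤ i.val →
          emb Y i = Sum.elim id (fun z : Fin M × Vr m => Y z.1 z.2) (full.get i).2 := by
        intro i hi
        rw [hemb]
        simp only
        rw [if_neg (by omega)]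
      exact ⟨⟨fun z => Y z.1 z.2, hY, hx⟩, hgood _ _ hx⟩

/-- Computations in rounds with directed networks, for one label set. -/
theorem det_core (hm1 : 1 ≤ m) (h M U n : ℕ) (hU : M * (tenc m h).length ≤ U) (hn : U ≤ n) {R : ℕ}
    (hR : ∀ r' ≤ R, ∀ P : Pool.Agent.H589R2.MNL.NBP (Vr m) r',
      (∀ l, P.Accepts (xpos hm1 h l)) → ¬ ∀ S, ¬ P.Accepts (xneg h S)) :
    ∃ (t : Fin n → Tg) (D : Set (Fin n → Bool)),
      (∀ x ∈ D, ∀ y ∈ D, x ≤ y → mach3.Accepts (List.ofFn fun i => (t i, x i)) →
        mach3.Accepts (List.ofFn fun i => (t i, y i))) ∧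
      ∀ k, k + U ≤ n → ∀ p : Prog (Net (Fin n)), p.cost ≤ M → 2 * p.load (dnetTests _) + 2 ≤ R →
        ∃ x ∈ D, k ≤ (Finset.univ.filter (fun i => x i = true)).card ∧
          (Finset.univ.filter (fun i => x i = true)).card ≤ k + U ∧
          ¬ (p.Acc (dnetTests _) x ↔ mach3.Accepts (List.ofFn fun i => (t i, x i))) := by
  classical
  obtain ⟨t, D, h1, h2⟩ := det_words hm1 h M U n hU hn
  refine ⟨t, D, h1, fun k hk p hcost hload => ?_⟩
  obtain ⟨emb, e1, e2, e3⟩ := h2 k hk
  by_contra hcon
  push Not at hcon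
  have hacc : ∀ Y : Fin M → Vr m → Bool, (∀ J, Y J ∈ KK hm1 h) →
      (p.Acc (dnetTests _) (emb Y) ↔ ∃ J, DGood h (Y J)) := by
    intro Y hY
    obtain ⟨h3, h4⟩ := e3 Y hY
    obtain ⟨h5, h6⟩ := e2 Y
    rw [hcon _ h3 h5 h6, h4]
  have hK : ∀ z : Vr m → Bool, (z = (fun _ => false) ∨
      ∃ S : Pool.Agent.H589R2.MNL.Tab (Nd h) m, z = xneg h S) → z ∈ KK hm1 h := by
    rintro z (rfl | ⟨y, rfl⟩)
    · exact Or.inl rfl
    · exact Or.inr (Or.inl ⟨_, rfl⟩)
  obtain ⟨j, X, L, hL, hpos, hneg⟩ := elim_dom (dnet_mono (Fin n)) p M hcost emb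
    (fun X Y hXY i hi => by
      rcases e1 i with ⟨J, z, h⟩ | ⟨c, h⟩
      · rw [h] at hi ⊢
        exact hXY _ _ hi
      · rw [h] at hi ⊢
        exact hi)
    (fun l : Nd h → Fin m => xpos hm1 h l)
    (fun S : Pool.Agent.H589R2.MNL.Tab (Nd h) m => xneg h S)
    (fun Y hY => by
      rw [hacc Y (fun J => hK _ (hY J))]
      rintro ⟨j, hj⟩
      have h1 := dgood_good hj
      rcases hY j with h2 | ⟨y, h2⟩
      · rw [h2] at h1
        exact not_good_zero h h1
      · rw [h2] at h1
        exact not_good_xneg h _ h1)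
    (fun Y hY J l => by
      rw [hacc _ (fun J' => by
        by_cases hJ : J' = J
        · subst hJ
          rw [Function.update_self]
          exact Or.inr (Or.inr ⟨l, rfl⟩)
        · rw [Function.update_of_ne hJ]
          exact hK _ (hY J'))]
      refine ⟨J, ?_⟩
      rw [Function.update_self]
      exact dgood_xpos hm1 h l)
  obtain ⟨N, hN, hNL⟩ := dir_or L
  -- the substitution
  have hρ : ∀ i : Fin n, ∃ a : Bool ⊕ Vr m, ∀ y : Vr m → Bool,
      emb (Function.update X j y) i = Sum.elim id y a := by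
    intro i
    rcases e1 i with ⟨J, z, h⟩ | ⟨c, h⟩
    · by_cases hJ : J = j
      · refine ⟨Sum.inr z, fun y => ?_⟩
        rw [h, hJ, Function.update_self]
        rfl
      · refine ⟨Sum.inl (X J z), fun y => ?_⟩
        rw [h, Function.update_of_ne hJ]
        rfl
    · exact ⟨Sum.inl c, fun y => h _⟩
  choose ρ hρ using hρ
  have hρ' : ∀ y : Vr m → Bool, (fun i => Sum.elim id y (ρ i)) = emb (Function.update X j y) := by
    intro y
    funext i
    rw [hρ]
  refine hR (2 * N.size + 2) ?_ (nbpOf N ρ) (fun l => ?_) (fun S hS => ?_)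
  · have : (L.map (dnetTests (Fin n)).size).sum = (L.map SP.Net.size).sum := rfl
    omega
  · rw [nbpOf_acc, hρ', hNL]
    exact hpos l
  · rw [nbpOf_acc, hρ', hNL] at hS
    exact hneg S hS

end

/-- **For all large `n`, the language of the deterministic automaton is hard for computations in
rounds with directed networks, on few consecutive slices.** -/
theorem det_dir (c j : ℕ) : ∃ n₀ : ℕ, ∀ n M U : ℕ, n₀ ≤ n → M ^ (j + 1) * n ≤ U ^ (j + 1) →
    U ≤ n → ∃ (t : Fin n → Tg) (D : Set (Fin n → Bool)),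
      (∀ x ∈ D, ∀ y ∈ D, x ≤ y → mach3.Accepts (List.ofFn fun i => (t i, x i)) →
        mach3.Accepts (List.ofFn fun i => (t i, y i))) ∧
      ∀ k, k + U ≤ n → ∀ p : Prog (Net (Fin n)), p.cost ≤ M → p.load (dnetTests _) ≤ n ^ c →
        ∃ x ∈ D, k ≤ (Finset.univ.filter (fun i => x i = true)).card ∧
          (Finset.univ.filter (fun i => x i = true)).card ≤ k + U ∧
          ¬ (p.Acc (dnetTests _) x ↔ mach3.Accepts (List.ofFn fun i => (t i, x i))) := by
  obtain ⟨J, hJ⟩ : ∃ J, J = j + 1 := ⟨_, rfl⟩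
  have hJ1 : 1 ≤ J := by omega
  obtain ⟨h, L0, hsingle⟩ := single_all (2 * J * c)
  refine ⟨2 ^ (4 * J * (L0 + h + 4)), fun n M U hn hMU hU => ?_⟩
  rw [← hJ] at hMU
  obtain ⟨L, hL⟩ : ∃ L, L = Nat.log 2 n := ⟨_, rfl⟩
  have hn0 : n ≠ 0 := by
    have : 1 ≤ 2 ^ (4 * J * (L0 + h + 4)) := Nat.one_le_two_pow
    omega
  have hL1 : 4 * J * (L0 + h + 4) ≤ L := by
    rw [hL]
    exact Nat.le_log_of_pow_le (by norm_num) hn
  have hL2 : 2 ^ L ≤ n := by
    rw [hL]
    exact Nat.pow_log_le_self 2 hn0
  have hL3 : n < 2 ^ (L + 1) := by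
    rw [hL]
    exact Nat.lt_pow_succ_log_self (by norm_num) n
  obtain ⟨w, hw⟩ : ∃ w, w = L / J := ⟨_, rfl⟩
  have hw1 : 4 * (L0 + h + 4) ≤ w := by
    rw [hw, Nat.le_div_iff_mul_le (by omega)]
    calc 4 * (L0 + h + 4) * J = 4 * J * (L0 + h + 4) := by ring
      _ ≤ L := hL1
  have hw2 : J * w ≤ L := by
    rw [hw]
    exact Nat.mul_div_le L J
  have hw3 : L + 1 ≤ J * (w + 1) := by
    rw [hw]
    exact Nat.lt_mul_div_succ L (by omega)
  obtain ⟨s, hs⟩ : ∃ s, s = (w - (h + 4)) / 4 := ⟨_, rfl⟩
  have hs1 : h + 4 + 4 * s ≤ w := by omega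
  have hs2 : w ≤ h + 7 + 4 * s := by omega
  have hs3 : L0 ≤ s := by omega
  have hs4 : 1 ≤ s := by omega
  obtain ⟨m, hm⟩ : ∃ m, m = 2 ^ s := ⟨_, rfl⟩
  have hm1 : 1 ≤ m := by
    rw [hm]
    exact Nat.one_le_two_pow
  have hb : (tenc m h).length ≤ 2 ^ (h + 4 + 4 * s) := by
    refine (length_tenc hm1 h).trans (le_of_eq ?_)
    rw [hm, ← pow_mul, ← pow_add]
    congr 1
    ring
  have hUU : M * (tenc m h).length ≤ U := by
    have h1 : (tenc m h).length ^ J ≤ n := by
      calc (tenc m h).length ^ J ≤ (2 ^ (h + 4 + 4 * s)) ^ J := Nat.pow_le_pow_left hb J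
        _ = 2 ^ (J * (h + 4 + 4 * s)) := by rw [← pow_mul, Nat.mul_comm]
        _ ≤ 2 ^ L := Nat.pow_le_pow_right (by norm_num) ((Nat.mul_le_mul_left J hs1).trans hw2)
        _ ≤ n := hL2
    have h2 : (M * (tenc m h).length) ^ J ≤ U ^ J := by
      rw [mul_pow]
      exact (Nat.mul_le_mul_left _ h1).trans hMU
    exact (Nat.pow_le_pow_iff_left (by omega)).mp h2
  have hsing := hsingle s hs3 hs4 m hm hm1
  obtain ⟨t, D, h1, h2⟩ := det_core hm1 h M U n hUU hU
    (R := 2 ^ ((h + 5 + 4 * s) * (2 * J * c) + 2)) hsing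
  refine ⟨t, D, h1, fun k hk p hcost hload => h2 k hk p hcost ?_⟩
  have h3 : n ^ c ≤ 2 ^ ((L + 1) * c) := by
    rw [pow_mul]
    exact Nat.pow_le_pow_left hL3.le c
  have h4 : (L + 1) * c ≤ (h + 5 + 4 * s) * (2 * J * c) := by
    have h5 : w + 1 ≤ 2 * (h + 5 + 4 * s) := by omega
    calc (L + 1) * c ≤ (J * (w + 1)) * c := Nat.mul_le_mul_right _ hw3
      _ ≤ (J * (2 * (h + 5 + 4 * s))) * c :=
          Nat.mul_le_mul_right _ (Nat.mul_le_mul_left _ h5)
      _ = (h + 5 + 4 * s) * (2 * J * c) := by ring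
  have h6 : 2 ^ ((L + 1) * c) ≤ 2 ^ ((h + 5 + 4 * s) * (2 * J * c)) :=
    Nat.pow_le_pow_right (by norm_num) h4
  have h7 : 1 ≤ 2 ^ ((h + 5 + 4 * s) * (2 * J * c)) := Nat.one_le_two_pow
  have h8 : 2 ^ ((h + 5 + 4 * s) * (2 * J * c) + 2) = 4 * 2 ^ ((h + 5 + 4 * s) * (2 * J * c)) := by
    rw [pow_add]
    ring
  rw [h8]
  omega

end Pool.Agent.W953.CF
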